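import Pool.Agent.H477.Jen.Local

set_option autoImplicit false

/-!
# The criterion of Jensen and Pólya for even positive kernels
-/

namespace Pool.Agent.H424.DX

open Complex MeasureTheory Filter Topology Set Metric Polynomial
open Pool.Agent.Helper242.KK (FT)
open Pool.Agent.H477.Jen

/-- lower bound of a factor -/
theorem factor_ge {x : ℂ} (hx : x.im ≠ 0) {s : ℝ} (hs : 0 ≤ s) :
    Real.exp (-((4 * ‖x‖ + 2 * ‖x‖ * Real.log (‖x‖ ^ 2 / x.im ^ 2)) * s)) ≤ ‖1 + x * s‖ ^ 2 := by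
  have hx0 : 0 < ‖x‖ := norm_pos_iff.2 (by rintro rfl; simp at hx)
  have hy : 0 < x.im ^ 2 := by positivity
  have hyx : x.im ^ 2 ≤ ‖x‖ ^ 2 := by
    rw [← sq_abs]
    exact pow_le_pow_left₀ (abs_nonneg _) (abs_im_le_norm x) 2
  have hL : 0 ≤ Real.log (‖x‖ ^ 2 / x.im ^ 2) := Real.log_nonneg ((one_le_div hy).2 hyx)
  have hns : ‖x‖ ^ 2 = x.re ^ 2 + x.im ^ 2 := by
    rw [Complex.sq_norm, Complex.normSq_apply]; ring
  have hf : ‖1 + x * s‖ ^ 2 = 1 + 2 * s * x.re + s ^ 2 * ‖x‖ ^ 2 := by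
    rw [hns, Complex.sq_norm, Complex.normSq_apply]
    simp
    ring
  rcases le_total (2 * ‖x‖ * s) 1 with h | h
  · have h1 : 1 - ‖x‖ * s ≤ ‖1 + x * s‖ := by
      have h2 := norm_sub_norm_le (1 : ℂ) (-(x * s))
      rw [sub_neg_eq_add, norm_neg, norm_mul, norm_one, norm_real, Real.norm_eq_abs, abs_of_nonneg hs] at h2
      exact h2
    have h2 : Real.exp (-(2 * (‖x‖ * s))) ≤ 1 - ‖x‖ * s := by
      have hu0 : 0 ≤ ‖x‖ * s := by positivity
      have hu1 : ‖x‖ * s ≤ 1 / 2 := by linarith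
      rw [Real.exp_neg, inv_le_comm₀ (Real.exp_pos _) (by linarith)]
      have h3 : 1 + 2 * (‖x‖ * s) ≤ Real.exp (2 * (‖x‖ * s)) := by
        linarith [Real.add_one_le_exp (2 * (‖x‖ * s))]
      refine le_trans ?_ h3
      rw [inv_le_iff_one_le_mul₀ (by linarith)]
      nlinarith
    calc _ ≤ Real.exp (-(4 * (‖x‖ * s))) := by
          apply Real.exp_le_exp.2
          have : 0 ≤ 2 * ‖x‖ * Real.log (‖x‖ ^ 2 / x.im ^ 2) * s := by positivity
          nlinarith
      _ = Real.exp (-(2 * (‖x‖ * s))) ^ 2 := by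
          rw [← Real.exp_nat_mul]
          congr 1
          push_cast
          ring
      _ ≤ _ := pow_le_pow_left₀ (Real.exp_pos _).le (h2.trans h1) 2
  · have h1 : x.im ^ 2 / ‖x‖ ^ 2 ≤ ‖1 + x * s‖ ^ 2 := by
      rw [div_le_iff₀ (by positivity), hf]
      have h2 : 0 ≤ (x.re + s * ‖x‖ ^ 2) ^ 2 := sq_nonneg _
      nlinarith
    refine le_trans ?_ h1
    have h2 : x.im ^ 2 / ‖x‖ ^ 2 = Real.exp (-Real.log (‖x‖ ^ 2 / x.im ^ 2)) := by
      rw [Real.exp_neg, Real.exp_log (by positivity), inv_div]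
    rw [h2]
    apply Real.exp_le_exp.2
    have h3 : Real.log (‖x‖ ^ 2 / x.im ^ 2) * 1 ≤ Real.log (‖x‖ ^ 2 / x.im ^ 2) * (2 * ‖x‖ * s) :=
      mul_le_mul_of_nonneg_left h hL
    have h4 : 0 ≤ 4 * ‖x‖ * s := by positivity
    nlinarith

theorem mprod_ge {x : ℂ} {M : ℝ} (hM : ∀ s : ℝ, 0 ≤ s → Real.exp (-(M * s)) ≤ ‖1 + x * s‖ ^ 2)
    (m : Multiset ℝ) (hm : ∀ s ∈ m, 0 ≤ s) :
    Real.exp (-(M * m.sum)) ≤ ‖(m.map fun s : ℝ => 1 + x * (s : ℂ)).prod‖ ^ 2 := by
  induction m using Multiset.induction_on with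
  | empty => simp
  | cons a m ih =>
    rw [Multiset.map_cons, Multiset.prod_cons, Multiset.sum_cons, norm_mul, mul_pow, mul_add, neg_add,
      Real.exp_add]
    exact mul_le_mul (hM a (hm a (Multiset.mem_cons_self a m)))
      (ih fun s hs => hm s (Multiset.mem_cons_of_mem hs)) (Real.exp_pos _).le (by positivity)

/-- a polynomial with negative roots only is bounded below off the real axis -/
theorem poly_ge {P : ℂ[X]} (h0 : P.eval 0 ≠ 0) (hr : ∀ ρ : ℂ, P.IsRoot ρ → ρ.im = 0 ∧ ρ.re < 0) {S : ℝ}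
    (hS : (derivative P).eval 0 = S * P.eval 0) {x : ℂ} (hx : x.im ≠ 0) :
    ‖P.eval 0‖ ^ 2 * Real.exp (-((4 * ‖x‖ + 2 * ‖x‖ * Real.log (‖x‖ ^ 2 / x.im ^ 2)) * S)) ≤ ‖P.eval x‖ ^ 2 := by
  have hP0 : P ≠ 0 := by
    rintro rfl
    simp at h0
  have hsp : P.Splits := IsAlgClosed.splits P
  set m : Multiset ℝ := P.roots.map (fun ρ => -(1 / ρ.re)) with hm
  have hroot : ∀ ρ ∈ P.roots, ρ = (ρ.re : ℂ) ∧ ρ.re < 0 := by
    intro ρ hρ
    have h1 := hr ρ (isRoot_of_mem_roots hρ)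
    refine ⟨?_, h1.2⟩
    apply Complex.ext <;> simp [h1.1]
  have hmn : ∀ s ∈ m, 0 ≤ s := by
    intro s hs
    rw [hm, Multiset.mem_map] at hs
    obtain ⟨ρ, hρ, rfl⟩ := hs
    have := (hroot ρ hρ).2
    have h2 : 1 / ρ.re ≤ 0 := one_div_nonpos.2 this.le
    linarith
  have hev : ∀ y : ℂ, P.eval y = P.leadingCoeff * (P.roots.map fun ρ => y - ρ).prod := by
    intro y
    have h1 := hsp.eq_prod_roots
    conv_lhs => rw [h1]
    rw [eval_mul, eval_C, eval_multiset_prod, Multiset.map_map]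
    congr 2
    refine Multiset.map_congr rfl fun ρ _ => ?_
    simp
  have hfac : P.eval x = P.eval 0 * (m.map fun s : ℝ => 1 + x * (s : ℂ)).prod := by
    rw [hev x, hev 0, mul_assoc, hm, Multiset.map_map, ← Multiset.prod_map_mul]
    congr 2
    refine Multiset.map_congr rfl fun ρ hρ => ?_
    obtain ⟨h1, h2⟩ := hroot ρ hρ
    have h3 : (ρ.re : ℂ) ≠ 0 := by exact_mod_cast h2.ne
    simp only [Function.comp]
    rw [h1]
    push_cast
    rw [ofReal_re]
    field_simp
    ring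
  have hsum : m.sum = S := by
    have h1 := hsp.eval_derivative_div_eval_of_ne_zero h0
    rw [hS, mul_div_cancel_right₀ _ h0] at h1
    have h2 : (P.roots.map fun z : ℂ => 1 / (0 - z)).sum = ((m.sum : ℝ) : ℂ) := by
      have h3 : ((m.sum : ℝ) : ℂ) = (m.map fun r : ℝ => (r : ℂ)).sum := map_multiset_sum Complex.ofRealHom m
      rw [h3, hm, Multiset.map_map]
      congr 1
      refine Multiset.map_congr rfl fun ρ hρ => ?_
      obtain ⟨h1, h2⟩ := hroot ρ hρ
      simp only [Function.comp]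
      rw [h1]
      push_cast
      rw [ofReal_re, zero_sub, one_div, one_div, inv_neg]
    rw [h2] at h1
    exact_mod_cast h1.symm
  rw [hfac, norm_mul, mul_pow, ← hsum]
  exact mul_le_mul_of_nonneg_left (mprod_ge (fun s hs => factor_ge hx hs) m hmn) (by positivity)

/-- the polynomials `J^{d,0}(x/d)` converge to `F` -/
theorem tendsto_jensen {g : ℕ → ℝ} (hg : ∀ n, 0 < g n) {x : ℂ} {v : ℂ}
    (hs : HasSum (fun n : ℕ => ((g n / n.factorial : ℝ) : ℂ) * x ^ n) v)
    (hs' : Summable (fun n : ℕ => g n / n.factorial * ‖x‖ ^ n)) :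
    Tendsto (fun d : ℕ => ∑ j ∈ Finset.range (d + 1), (d.choose j : ℂ) * (g j : ℂ) * (x / d) ^ j) atTop (𝓝 v) := by
  rw [← hs.tsum_eq]
  have h1 : ∀ d : ℕ, ∑ j ∈ Finset.range (d + 1), (d.choose j : ℂ) * (g j : ℂ) * (x / d) ^ j =
      ∑' j : ℕ, (d.choose j : ℂ) * (g j : ℂ) * (x / d) ^ j := by
    intro d
    symm
    apply tsum_eq_sum
    intro j hj
    have : d < j := by
      simp only [Finset.mem_range, not_lt] at hj
      omega
    rw [Nat.choose_eq_zero_of_lt this]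
    simp
  simp_rw [h1]
  have hch : ∀ d j : ℕ, ((d.choose j : ℕ) : ℝ) * (1 / (d : ℝ)) ^ j ≤ 1 / j.factorial := by
    intro d j
    rcases Nat.eq_zero_or_pos d with rfl | hd
    · rcases Nat.eq_zero_or_pos j with rfl | hj
      · simp
      · rw [Nat.choose_eq_zero_of_lt hj]
        simp
    · have hd0 : (0 : ℝ) < d := by exact_mod_cast hd
      have h2 : ((d.choose j : ℕ) : ℝ) ≤ (d : ℝ) ^ j / j.factorial := Nat.choose_le_pow_div j d
      calc ((d.choose j : ℕ) : ℝ) * (1 / (d : ℝ)) ^ j ≤ (d : ℝ) ^ j / j.factorial * (1 / (d : ℝ)) ^ j :=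
            mul_le_mul_of_nonneg_right h2 (by positivity)
        _ = _ := by
            rw [one_div, inv_pow]
            field_simp
  refine tendsto_tsum_of_dominated_convergence hs' (fun j => ?_) (Eventually.of_forall fun d j => ?_)
  · have h3 : Tendsto (fun d : ℕ => ((d.choose j : ℕ) : ℝ) * (1 / (d : ℝ)) ^ j) atTop (𝓝 (1 / j.factorial)) := by
      have h5 : Tendsto (fun d : ℕ => (d : ℝ) * (1 / (d : ℝ))) atTop (𝓝 1) := by
        refine tendsto_const_nhds.congr' ?_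
        filter_upwards [eventually_gt_atTop 0] with d hd
        have : (d : ℝ) ≠ 0 := by exact_mod_cast hd.ne'
        field_simp
      have h6 := ProbabilityTheory.tendsto_choose_mul_pow_atTop j h5
      simpa using h6
    have h4 : Tendsto (fun d : ℕ => (((((d.choose j : ℕ) : ℝ) * (1 / (d : ℝ)) ^ j) : ℝ) : ℂ) * ((g j : ℂ) * x ^ j))
        atTop (𝓝 (((1 / j.factorial : ℝ) : ℂ) * ((g j : ℂ) * x ^ j))) :=
      ((Complex.continuous_ofReal.tendsto _).comp h3).mul_const _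
    refine (h4.congr fun d => ?_).trans (le_of_eq ?_)
    · push_cast
      rw [div_pow, div_pow, one_pow]
      ring
    · congr 1
      push_cast
      ring
  · rw [norm_mul, norm_mul, norm_pow, norm_div, Complex.norm_natCast, Complex.norm_natCast, norm_real, Real.norm_eq_abs,
      abs_of_pos (hg j)]
    calc ((d.choose j : ℕ) : ℝ) * g j * (‖x‖ / d) ^ j =
          (((d.choose j : ℕ) : ℝ) * (1 / (d : ℝ)) ^ j) * (g j * ‖x‖ ^ j) := by
            rw [div_pow, one_div, inv_pow]; ring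
      _ ≤ 1 / j.factorial * (g j * ‖x‖ ^ j) :=
          mul_le_mul_of_nonneg_right (hch d j) (by have := hg j; positivity)
      _ = _ := by ring

/-- `J^{d,0}(x/d)` as a polynomial in `x` -/
noncomputable def QQ (g : ℕ → ℝ) (d : ℕ) : ℂ[X] :=
  ∑ j ∈ Finset.range (d + 1), C ((d.choose j : ℂ) * (g j : ℂ) * (1 / d) ^ j) * X ^ j

theorem QQ_eval (g : ℕ → ℝ) (d : ℕ) (x : ℂ) : (QQ g d).eval x =
    ∑ j ∈ Finset.range (d + 1), (d.choose j : ℂ) * (g j : ℂ) * (x / d) ^ j := by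
  rw [QQ, eval_finsetSum]
  refine Finset.sum_congr rfl fun j _ => ?_
  rw [eval_mul, eval_C, eval_pow, eval_X, div_pow, div_pow, one_pow]
  ring

theorem QQ_coeff (g : ℕ → ℝ) (d k : ℕ) (hk : k ≤ d) : (QQ g d).coeff k = (d.choose k : ℂ) * (g k : ℂ) * (1 / d) ^ k := by
  rw [QQ, finsetSum_coeff]
  simp only [coeff_C_mul_X_pow]
  rw [Finset.sum_eq_single k]
  · simp
  · intro b _ hb
    simp [hb.symm]
  · intro h
    simp only [Finset.mem_range, not_lt] at h
    omega

theorem crit_back {g : ℕ → ℝ} (hg : ∀ n, 0 < g n) {F : ℂ → ℂ}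
    (hs : ∀ x : ℂ, HasSum (fun n : ℕ => ((g n / n.factorial : ℝ) : ℂ) * x ^ n) (F x))
    (hJ : ∀ d : ℕ, 1 ≤ d → ∀ Y : ℂ,
      ∑ j ∈ Finset.range (d + 1), (d.choose j : ℂ) * (g j : ℂ) * Y ^ j = 0 → Y.im = 0) {x : ℂ}
    (hx : F x = 0) : x.im = 0 := by
  by_contra him
  have hs' : Summable (fun n : ℕ => g n / n.factorial * ‖x‖ ^ n) := by
    have h1 := (hs x).summable.norm
    refine h1.congr fun n => ?_
    rw [norm_mul, norm_pow, norm_real, Real.norm_of_nonneg]
    have := hg n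
    positivity
  have hlim := tendsto_jensen hg (hs x) hs'
  set M := 4 * ‖x‖ + 2 * ‖x‖ * Real.log (‖x‖ ^ 2 / x.im ^ 2) with hM
  have hg0 := hg 0
  have hg0c : (g 0 : ℂ) ≠ 0 := by exact_mod_cast hg0.ne'
  have key : ∀ d : ℕ, 1 ≤ d → (g 0) ^ 2 * Real.exp (-(M * (g 1 / g 0))) ≤
      ‖∑ j ∈ Finset.range (d + 1), (d.choose j : ℂ) * (g j : ℂ) * (x / d) ^ j‖ ^ 2 := by
    intro d hd
    have hdc : (d : ℂ) ≠ 0 := by exact_mod_cast (by omega : d ≠ 0)
    have hd0 : (0 : ℝ) < d := by exact_mod_cast hd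
    have e0 : (QQ g d).eval 0 = (g 0 : ℂ) := by
      rw [← coeff_zero_eq_eval_zero, QQ_coeff g d 0 (by omega)]
      simp
    have e1 : (derivative (QQ g d)).eval 0 = ((g 1 / g 0 : ℝ) : ℂ) * (QQ g d).eval 0 := by
      rw [e0, ← coeff_zero_eq_eval_zero, coeff_derivative, QQ_coeff g d (0 + 1) (by omega)]
      simp
      field_simp
    have h1 := poly_ge (P := QQ g d) (by rw [e0]; exact hg0c) (fun ρ hρ => by
      have h2 : (QQ g d).eval ρ = 0 := hρ
      rw [QQ_eval] at h2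
      have h3 := hJ d hd (ρ / d) h2
      have h4 : ρ.im = 0 := by
        have e : (ρ / d).im = ρ.im / d := by
          rw [← Complex.ofReal_natCast, Complex.div_ofReal_im]
        rw [e, div_eq_zero_iff] at h3
        rcases h3 with h3 | h3
        · exact h3
        · exact absurd h3 hd0.ne'
      refine ⟨h4, ?_⟩
      by_contra hneg
      push Not at hneg
      have h5 : ρ = (ρ.re : ℂ) := by apply Complex.ext <;> simp [h4]
      rw [h5] at h2
      have h6 : ∑ j ∈ Finset.range (d + 1), (d.choose j : ℝ) * g j * (ρ.re / d) ^ j = 0 := by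
        have h7 : ((∑ j ∈ Finset.range (d + 1), (d.choose j : ℝ) * g j * (ρ.re / d) ^ j : ℝ) : ℂ) = 0 := by
          rw [← h2]
          push_cast
          rfl
        exact_mod_cast h7
      have h7 : 0 < ∑ j ∈ Finset.range (d + 1), (d.choose j : ℝ) * g j * (ρ.re / d) ^ j := by
        refine Finset.sum_pos' (fun j _ => ?_) ⟨0, by simp, ?_⟩
        · have := hg j
          positivity
        · simpa using hg0
      linarith) e1 him
    rw [e0, QQ_eval, norm_real, Real.norm_of_nonneg hg0.le] at h1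
    exact h1
  have hlim2 : Tendsto (fun d : ℕ => ‖∑ j ∈ Finset.range (d + 1), (d.choose j : ℂ) * (g j : ℂ) * (x / d) ^ j‖ ^ 2)
      atTop (𝓝 (‖F x‖ ^ 2)) := (hlim.norm).pow 2
  have h1 := ge_of_tendsto hlim2 (eventually_atTop.2 ⟨1, key⟩)
  rw [hx, norm_zero] at h1
  have : 0 < (g 0) ^ 2 * Real.exp (-(M * (g 1 / g 0))) := by positivity
  norm_num at h1
  linarith

/-- **The criterion of Jensen and Pólya.** -/
theorem crit {w : ℝ → ℝ} (hw : Ker w) {F : ℂ → ℂ} (hF : IsF w F) :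
    (∀ x : ℂ, F x = 0 → x.im = 0) ↔ ∀ d n : ℕ, ∀ Y : ℂ,
      ∑ j ∈ Finset.range (d + 1), (d.choose j : ℂ) * (gam w (n + j) : ℂ) * Y ^ j = 0 → Y.im = 0 := by
  constructor
  · intro h d n Y hY
    rcases Nat.eq_zero_or_pos d with rfl | hd
    · exfalso
      simp only [zero_add, Finset.range_one, Finset.sum_singleton, Nat.choose_self, Nat.cast_one, one_mul, add_zero,
        pow_zero, mul_one] at hY
      exact (hw.gam_pos n).ne' (by exact_mod_cast hY)
    · refine (hF.tame_iter hw n).hyperbolic hd (fun ρ hρ => ?_) Y ?_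
      · have h1 : ρ.im = 0 := by
          by_contra him
          obtain ⟨W, -, hW⟩ := chain (fun k => iteratedDeriv k F) (hF.step hw) n ρ him hρ
          obtain ⟨h2, h3, -⟩ := hW 0 (Nat.zero_le n)
          simp only [iteratedDeriv_zero] at h2
          exact h3 (h _ h2)
        rw [h1]
        simp
      · refine Eq.trans (Finset.sum_congr rfl fun j _ => ?_) hY
        have e2 : iteratedDeriv j (iteratedDeriv n F) = iteratedDeriv (n + j) F := by
          rw [iteratedDeriv_eq_iterate, iteratedDeriv_eq_iterate, iteratedDeriv_eq_iterate,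
            ← Function.iterate_add_apply, add_comm]
        rw [e2, hF.deriv_zero]
  · intro h x hx
    refine crit_back hw.gam_pos (F := F) (fun x => ?_) (fun d _ Y hY => h d 0 Y (by simpa using hY)) hx
    refine (hF.sum x).congr_fun fun n => ?_
    unfold gam
    congr 2
    have : (n.factorial : ℝ) ≠ 0 := by exact_mod_cast n.factorial_ne_zero
    field_simp

end Pool.Agent.H424.DX
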