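import Pool.Agent.H424.DX.MS

set_option autoImplicit false

/-!
# Ramanujan's L-function for `Re s > 13/2`: Euler product and lower bound, polynomial growth
-/

namespace Pool.Agent.H424.DX

open Complex MeasureTheory Filter Topology Set MatrixGroups
open UpperHalfPlane hiding I
open scoped ComplexConjugate Real
open Pool.Agent.X3.Tau Pool.Agent.H575.RD Pool.Agent.W165.RS

/-- absolute convergence for `Re s > 1` -/
lemma la_summable' {s : ℂ} (hs : 1 < s.re) : Summable fun n : ℕ => ‖(la n : ℂ) * (n : ℂ) ^ (-s)‖ := by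
  have h := tau_summable (s := s + 11 / 2) (by
    have : (11 / 2 : ℂ) = ((11 / 2 : ℝ) : ℂ) := by push_cast; rfl
    rw [this, add_re, ofReal_re]; linarith)
  refine (h.norm).congr fun n => ?_
  rw [LSeries.norm_term_eq]
  rcases Nat.eq_zero_or_pos n with rfl | hn
  · simp [la_zero]
  · have hn0 : (0 : ℝ) < n := by exact_mod_cast hn
    rw [if_neg hn.ne', norm_mul, Complex.norm_real, Real.norm_eq_abs, Complex.norm_natCast_cpow_of_pos hn,
      neg_re]
    have e1 : (s + 11 / 2).re = s.re + 11 / 2 := by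
      have : (11 / 2 : ℂ) = ((11 / 2 : ℝ) : ℂ) := by push_cast; rfl
      rw [this, add_re, ofReal_re]
    rw [e1, Complex.norm_intCast]
    unfold la
    rw [abs_div, abs_of_pos (by positivity : 0 < (n : ℝ) ^ (11 / 2 : ℝ)), Real.rpow_add hn0, Real.rpow_neg hn0.le]
    field_simp

/-- the Euler product -/
theorem euler' {s : ℂ} (hs : 1 < s.re) :
    HasProd (fun p : Nat.Primes => (1 - (la p : ℂ) * ((p : ℕ) : ℂ) ^ (-s) + (((p : ℕ) : ℂ) ^ (-s)) ^ 2)⁻¹)
      (∑' n : ℕ, (la n : ℂ) * (n : ℂ) ^ (-s)) := by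
  have hsum := la_summable' hs
  have h := EulerProduct.eulerProduct_hasProd (f := fun n : ℕ => (la n : ℂ) * (n : ℂ) ^ (-s))
    (by simp [la_one]) (fun {m n} hmn => by
      show ((la (m * n) : ℝ) : ℂ) * ((m * n : ℕ) : ℂ) ^ (-s) = _
      rw [la_mul hmn]
      push_cast
      rw [Complex.natCast_mul_natCast_cpow]
      ring) hsum (by simp [la_zero])
  convert h using 2 with p
  have hp := p.2
  have hp0 : ((p : ℕ) : ℂ) ≠ 0 := by exact_mod_cast hp.ne_zero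
  have hpc : ∀ e : ℕ, (((p : ℕ) ^ e : ℕ) : ℂ) ^ (-s) = (((p : ℕ) : ℂ) ^ (-s)) ^ e := fun e => by
    rw [Nat.cast_pow, ← Complex.natCast_cpow_natCast_mul, ← Complex.cpow_nat_mul]
  have hinj : Function.Injective fun e : ℕ => (p : ℕ) ^ e := Nat.pow_right_injective hp.two_le
  have hs1 : Summable fun e : ℕ => (la ((p : ℕ) ^ e) : ℂ) * (((p : ℕ) ^ e : ℕ) : ℂ) ^ (-s) :=
    (hsum.of_norm).comp_injective hinj
  have hs2 : Summable fun e : ℕ => (la ((p : ℕ) ^ e) : ℂ) * (((p : ℕ) : ℂ) ^ (-s)) ^ e :=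
    hs1.congr fun e => by rw [hpc]
  have hl := local_sum hs2 (u := (la p : ℂ) * ((p : ℕ) : ℂ) ^ (-s)) (v := (((p : ℕ) : ℂ) ^ (-s)) ^ 2)
    (by simp [la_one]) (by simp) (fun j => by
      rw [la_rec p hp j]
      push_cast
      ring)
  rw [← hl]
  refine tsum_congr fun e => ?_
  show (la ((p : ℕ) ^ e) : ℂ) * (((p : ℕ) : ℂ) ^ (-s)) ^ e = (la ((p : ℕ) ^ e) : ℂ) * (((p : ℕ) ^ e : ℕ) : ℂ) ^ (-s)
  rw [hpc]

/-- lower bound and upper bound in the half-plane of absolute convergence -/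
theorem la_bounds {a : ℝ} (ha : 1 < a) : ∃ A : ℝ, 1 ≤ A ∧ ∀ s : ℂ, a ≤ s.re →
    ‖∑' n : ℕ, (la n : ℂ) * (n : ℂ) ^ (-s)‖ ≤ A ∧ 1 / A ≤ ‖∑' n : ℕ, (la n : ℂ) * (n : ℂ) ^ (-s)‖ := by
  have hsa := la_summable' (s := (a : ℂ)) (by simpa using ha)
  set K := ∑' n : ℕ, ‖(la n : ℂ) * (n : ℂ) ^ (-(a : ℂ))‖ with hK
  have hcmp : ∀ s : ℂ, a ≤ s.re → ∀ n : ℕ, ‖(la n : ℂ) * (n : ℂ) ^ (-s)‖ ≤ ‖(la n : ℂ) * (n : ℂ) ^ (-(a : ℂ))‖ := by
    intro s hs n
    rcases Nat.eq_zero_or_pos n with rfl | hn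
    · simp [la_zero]
    · rw [norm_mul, norm_mul]
      refine mul_le_mul_of_nonneg_left ?_ (norm_nonneg _)
      rw [Complex.norm_natCast_cpow_of_pos hn, Complex.norm_natCast_cpow_of_pos hn]
      refine Real.rpow_le_rpow_of_exponent_le (by exact_mod_cast hn) ?_
      rw [neg_re, neg_re, ofReal_re]
      linarith
  -- the sum over the primes
  have hP1 : Summable fun p : Nat.Primes => ‖(la p : ℂ) * ((p : ℕ) : ℂ) ^ (-(a : ℂ))‖ :=
    hsa.comp_injective (i := fun p : Nat.Primes => (p : ℕ)) Nat.Primes.coe_nat_injective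
  have hP2 : Summable fun p : Nat.Primes => ((p : ℕ) : ℝ) ^ (-a) := Nat.Primes.summable_rpow.2 (by linarith)
  set S := ∑' p : Nat.Primes, (‖(la p : ℂ) * ((p : ℕ) : ℂ) ^ (-(a : ℂ))‖ + ((p : ℕ) : ℝ) ^ (-a)) with hS
  have hP := hP1.add hP2
  refine ⟨max K (Real.exp S), ?_, fun s hs => ⟨?_, ?_⟩⟩
  · refine le_trans ?_ (le_max_right _ _)
    apply Real.one_le_exp
    exact tsum_nonneg fun p => by positivity
  · refine le_trans ?_ (le_max_left _ _)
    exact tsum_of_norm_bounded hsa.hasSum (hcmp s hs)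
  · have h1 : Real.exp (-S) ≤ ‖∑' n : ℕ, (la n : ℂ) * (n : ℂ) ^ (-s)‖ := by
      have h2 := (euler' (s := s) (by linarith)).norm
      refine ge_of_tendsto' h2 fun T => ?_
      have h3 : ∀ p ∈ T, Real.exp (-(‖(la p : ℂ) * ((p : ℕ) : ℂ) ^ (-(a : ℂ))‖ + ((p : ℕ) : ℝ) ^ (-a))) ≤
          ‖(1 - (la p : ℂ) * ((p : ℕ) : ℂ) ^ (-s) + (((p : ℕ) : ℂ) ^ (-s)) ^ 2)⁻¹‖ := by
        intro p _
        have hp1 : (1 : ℝ) ≤ (p : ℕ) := by exact_mod_cast p.2.one_le
        set x := ‖(la p : ℂ) * ((p : ℕ) : ℂ) ^ (-(a : ℂ))‖ + ((p : ℕ) : ℝ) ^ (-a) with hx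
        have hx0 : 0 ≤ x := by positivity
        have h4 : ‖(1 - (la p : ℂ) * ((p : ℕ) : ℂ) ^ (-s) + (((p : ℕ) : ℂ) ^ (-s)) ^ 2)‖ ≤ 1 + x := by
          have h5 : ‖(((p : ℕ) : ℂ) ^ (-s)) ^ 2‖ ≤ ((p : ℕ) : ℝ) ^ (-a) := by
            rw [norm_pow, Complex.norm_natCast_cpow_of_pos p.2.pos, neg_re, sq]
            have h6 : ((p : ℕ) : ℝ) ^ (-s.re) ≤ ((p : ℕ) : ℝ) ^ (-a) :=
              Real.rpow_le_rpow_of_exponent_le hp1 (by linarith)
            have h7 : ((p : ℕ) : ℝ) ^ (-s.re) ≤ 1 :=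
              Real.rpow_le_one_of_one_le_of_nonpos hp1 (by linarith)
            have h8 : 0 ≤ ((p : ℕ) : ℝ) ^ (-s.re) := by positivity
            nlinarith
          have h6 := hcmp s hs p
          calc _ ≤ ‖1 - (la p : ℂ) * ((p : ℕ) : ℂ) ^ (-s)‖ + ‖(((p : ℕ) : ℂ) ^ (-s)) ^ 2‖ := norm_add_le _ _
            _ ≤ (‖(1 : ℂ)‖ + ‖(la p : ℂ) * ((p : ℕ) : ℂ) ^ (-s)‖) + ‖(((p : ℕ) : ℂ) ^ (-s)) ^ 2‖ := by
                gcongr
                exact norm_sub_le _ _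
            _ ≤ 1 + x := by
                rw [norm_one, hx]
                linarith
        have h5 : 1 + x ≤ Real.exp x := by linarith [Real.add_one_le_exp x]
        have hne : (1 - (la p : ℂ) * ((p : ℕ) : ℂ) ^ (-s) + (((p : ℕ) : ℂ) ^ (-s)) ^ 2) ≠ 0 := by
          -- a vanishing factor: roots have absolute value at most `√p`
          intro h0
          set b : ℂ := ((p : ℕ) : ℂ) ^ s with hb
          have hpc : ((p : ℕ) : ℂ) ≠ 0 := by exact_mod_cast p.2.ne_zero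
          have hb0 : b ≠ 0 := by
            rw [hb]
            exact (Complex.cpow_ne_zero_iff).2 (Or.inl hpc)
          have hbi : ((p : ℕ) : ℂ) ^ (-s) = b⁻¹ := by rw [hb, Complex.cpow_neg]
          rw [hbi] at h0
          have hb2 : b ^ 2 = (la p : ℂ) * b - 1 := by
            have h6 : (1 - (la p : ℂ) * b⁻¹ + (b⁻¹) ^ 2) * b ^ 2 = b ^ 2 - (la p : ℂ) * b + 1 := by
              field_simp
            rw [h0, zero_mul] at h6
            linear_combination -h6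
          have h6 := root_le p.2 hb2
          rw [hb, Complex.norm_natCast_cpow_of_pos p.2.pos, Real.sqrt_eq_rpow] at h6
          have h7 : (1 : ℝ) < (p : ℕ) := by exact_mod_cast p.2.one_lt
          have h8 : ((p : ℕ) : ℝ) ^ (1 / 2 : ℝ) < ((p : ℕ) : ℝ) ^ s.re :=
            Real.rpow_lt_rpow_of_exponent_lt h7 (by linarith)
          linarith
        rw [norm_inv, Real.exp_neg]
        exact inv_anti₀ (norm_pos_iff.2 hne) (h4.trans h5)
      calc Real.exp (-S) ≤ Real.exp (-∑ p ∈ T, (‖(la p : ℂ) * ((p : ℕ) : ℂ) ^ (-(a : ℂ))‖ + ((p : ℕ) : ℝ) ^ (-a))) := by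
            apply Real.exp_le_exp.2
            have := hP.sum_le_tsum T (fun p _ => by positivity)
            linarith
        _ = ∏ p ∈ T, Real.exp (-(‖(la p : ℂ) * ((p : ℕ) : ℂ) ^ (-(a : ℂ))‖ + ((p : ℕ) : ℝ) ^ (-a))) := by
            rw [← Real.exp_sum, Finset.sum_neg_distrib]
        _ ≤ _ := Finset.prod_le_prod (fun p _ => (Real.exp_pos _).le) h3
    refine le_trans ?_ h1
    rw [Real.exp_neg, one_div]
    exact inv_anti₀ (Real.exp_pos _) (le_max_right _ _)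

end Pool.Agent.H424.DX
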