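import Pool.Agent.H424.DX.Eul
import Pool.Graph.R_seed8.TH270.MS.GrowthLeft

set_option autoImplicit false

/-!
# Ramanujan's L-function: continuation, polynomial growth
-/

namespace Pool.Agent.H424.DX

open Complex MeasureTheory Filter Topology Set MatrixGroups
open UpperHalfPlane hiding I
open scoped ComplexConjugate Real
open Pool.Agent.X3.Tau Pool.Agent.H575.RD Pool.Agent.W165.RS

/-- `L(Δ, s)` -/
noncomputable def LD (s : ℂ) : ℂ := ((2 * Real.pi : ℝ) : ℂ) ^ s * (Gamma s)⁻¹ * LamM s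

lemma two_pi_ne : ((2 * Real.pi : ℝ) : ℂ) ≠ 0 := by
  have := Real.pi_pos
  exact_mod_cast (by positivity : (2 * Real.pi : ℝ) ≠ 0)

lemma LD_diff : Differentiable ℂ LD := by
  have h1 : Differentiable ℂ fun s : ℂ => ((2 * Real.pi : ℝ) : ℂ) ^ s := by
    intro s
    exact (differentiableAt_id).const_cpow (Or.inl two_pi_ne)
  exact (h1.mul Complex.differentiable_one_div_Gamma).mul LamM_diff

lemma LD_eq (s : ℂ) : LD s = LamM s * (2 / Gammaℂ s) := by
  unfold LD
  have h2 : (2 * (Real.pi : ℂ)) ^ (-s) ≠ 0 := by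
    rw [Ne, Complex.cpow_eq_zero_iff]
    rintro ⟨h, -⟩
    have : (2 * Real.pi : ℝ) = 0 := by exact_mod_cast h
    have := Real.pi_pos
    linarith
  rw [Gammaℂ_def]
  have h3 : ((2 * Real.pi : ℝ) : ℂ) ^ s = ((2 * (Real.pi : ℂ)) ^ (-s))⁻¹ := by
    rw [Complex.cpow_neg, inv_inv]
    push_cast
    rfl
  rw [h3]
  generalize (2 * (Real.pi : ℂ)) ^ (-s) = x at h2
  rw [div_eq_mul_inv, mul_inv, mul_inv]
  ring

lemma LD_eq_L (s : ℂ) : LD s = ModularForm.L (k := 12) (by norm_num) CuspForm.discriminant s := by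
  rw [LD_eq, LamM_eq]
  rfl

lemma LD_series {s : ℂ} (hs : 7 < s.re) : HasSum (fun n : ℕ => ((tau n : ℤ) : ℂ) * (n : ℂ) ^ (-s)) (LD s) := by
  have h := CuspForm.hasSum_L (k := 12) (by norm_num) CuspForm.discriminant (s := s) (by push_cast; linarith)
  rw [Subgroup.strictWidthInfty_SL2Z] at h
  rw [LD_eq_L]
  simp only [Complex.ofReal_one, Complex.one_cpow, one_mul] at h
  convert h using 2 with n
  rw [coeff_tau, Complex.cpow_neg, div_eq_mul_inv]

lemma LD_LSeries {s : ℂ} (hs : 13 / 2 < s.re) : LD s = LSeries (fun n : ℕ => ((tau n : ℤ) : ℂ)) s := by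
  have hU : IsPreconnected {z : ℂ | 13 / 2 < z.re} := by
    have hc : Convex ℝ {z : ℂ | 13 / 2 < z.re} := by
      have : {z : ℂ | 13 / 2 < z.re} = Complex.reCLM ⁻¹' (Ioi (13 / 2)) := rfl
      rw [this]
      exact (convex_Ioi _).is_linear_preimage Complex.reCLM.isLinear
    exact hc.isPreconnected
  have hA : AnalyticOnNhd ℂ (LSeries (fun n : ℕ => ((tau n : ℤ) : ℂ))) {z : ℂ | 13 / 2 < z.re} := by
    intro z hz
    have hz : 13 / 2 < z.re := hz
    refine LSeries_analyticOnNhd _ z ?_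
    have h1 : LSeriesSummable (fun n : ℕ => ((tau n : ℤ) : ℂ)) (((13 / 2 + z.re) / 2 : ℝ) : ℂ) :=
      tau_summable (by rw [ofReal_re]; linarith)
    refine lt_of_le_of_lt h1.abscissaOfAbsConv_le ?_
    rw [ofReal_re]
    exact_mod_cast (by linarith : (13 / 2 + z.re) / 2 < z.re)
  have hD : AnalyticOnNhd ℂ LD {z : ℂ | 13 / 2 < z.re} :=
    LD_diff.differentiableOn.analyticOnNhd (isOpen_lt continuous_const Complex.continuous_re)
  refine hD.eqOn_of_preconnected_of_eventuallyEq hA hU (z₀ := 8) (by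
    show (13 / 2 : ℝ) < (8 : ℂ).re
    norm_num) ?_ hs
  have h8 : ∀ᶠ z : ℂ in 𝓝 8, 7 < z.re :=
    (isOpen_lt continuous_const Complex.continuous_re).mem_nhds (by
      show (7 : ℝ) < (8 : ℂ).re
      norm_num)
  filter_upwards [h8] with z hz
  rw [← (LD_series hz).tsum_eq, LSeries]
  refine tsum_congr fun n => ?_
  rcases Nat.eq_zero_or_pos n with rfl | hn
  · simp [tau_zero]
  · rw [LSeries.term_of_ne_zero hn.ne', Complex.cpow_neg, div_eq_mul_inv]

lemma LD_la {s : ℂ} (hs : 1 < s.re) : LD (s + 11 / 2) = ∑' n : ℕ, (la n : ℂ) * (n : ℂ) ^ (-s) := by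
  have hre : (s + 11 / 2 : ℂ).re = s.re + 11 / 2 := by
    have : (11 / 2 : ℂ) = ((11 / 2 : ℝ) : ℂ) := by push_cast; rfl
    rw [this, add_re, ofReal_re]
  rw [LD_LSeries (by rw [hre]; linarith), LSeries]
  refine tsum_congr fun n => ?_
  rcases Nat.eq_zero_or_pos n with rfl | hn
  · rw [la_zero]; simp
  · have hn0 : (n : ℂ) ≠ 0 := by exact_mod_cast hn.ne'
    have hnr : (0 : ℝ) < n := by exact_mod_cast hn
    rw [LSeries.term_of_ne_zero hn.ne']
    unfold la
    rw [Complex.cpow_add _ _ hn0, Complex.ofReal_div, Complex.ofReal_cpow hnr.le, Complex.cpow_neg]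
    push_cast
    rw [div_mul_eq_div_div, div_eq_mul_inv, div_eq_mul_inv, div_eq_mul_inv]
    ring

theorem LD_bounds {a : ℝ} (ha : 13 / 2 < a) : ∃ A : ℝ, 1 ≤ A ∧ ∀ s : ℂ, a ≤ s.re →
    ‖LD s‖ ≤ A ∧ 1 / A ≤ ‖LD s‖ := by
  obtain ⟨A, hA, h⟩ := la_bounds (a := a - 11 / 2) (by linarith)
  refine ⟨A, hA, fun s hs => ?_⟩
  have hre : (s - 11 / 2 : ℂ).re = s.re - 11 / 2 := by
    have : (11 / 2 : ℂ) = ((11 / 2 : ℝ) : ℂ) := by push_cast; rfl
    rw [this, sub_re, ofReal_re]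
  have e := LD_la (s := s - 11 / 2) (by rw [hre]; linarith)
  rw [sub_add_cancel] at e
  rw [e]
  exact h _ (by rw [hre]; linarith)

theorem LD_ne {s : ℂ} (hs : 13 / 2 < s.re) : LD s ≠ 0 := by
  obtain ⟨A, hA, h⟩ := LD_bounds hs
  have h1 := (h s le_rfl).2
  intro h0
  rw [h0, norm_zero] at h1
  have : 0 < 1 / A := by positivity
  linarith

/-- the functional equation -/
lemma LD_fe (s : ℂ) (hs : s.re = 4) : ‖LD s‖ ≤ ‖LD (12 - s)‖ * ∏ j ∈ Finset.range 4, ‖s + j‖ := by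
  have h0 : (12 - s).re = 8 := by
    rw [sub_re, hs]; norm_num
  have hG : Gamma (12 - s) ≠ 0 := Gamma_ne_zero_of_re_pos (by rw [h0]; norm_num)
  have h1 : LD s = (((2 * Real.pi : ℝ) : ℂ) ^ s * (((2 * Real.pi : ℝ) : ℂ) ^ (12 - s))⁻¹) *
      (Gamma (12 - s) * (Gamma s)⁻¹) * LD (12 - s) := by
    unfold LD
    rw [LamM_fe]
    have h3 : ((2 * Real.pi : ℝ) : ℂ) ^ (12 - s) ≠ 0 := (Complex.cpow_ne_zero_iff).2 (Or.inl two_pi_ne)
    field_simp
  have hp1 : (1 : ℝ) ≤ 2 * Real.pi := by have := Real.pi_gt_three; linarith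
  have h2 : ‖((2 * Real.pi : ℝ) : ℂ) ^ s * (((2 * Real.pi : ℝ) : ℂ) ^ (12 - s))⁻¹‖ ≤ 1 := by
    rw [norm_mul, norm_inv, Complex.norm_cpow_eq_rpow_re_of_pos (by positivity),
      Complex.norm_cpow_eq_rpow_re_of_pos (by positivity), hs, h0, ← div_eq_mul_inv]
    rw [div_le_one (by positivity)]
    exact Real.rpow_le_rpow_of_exponent_le hp1 (by norm_num)
  have h3 : ‖Gamma (12 - s)‖ = ‖Gamma (s + (4 : ℕ))‖ := by
    have e : conj (s + (4 : ℕ)) = 12 - s := by
      apply Complex.ext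
      · rw [conj_re, h0, add_re, hs]; norm_num
      · rw [conj_im, add_im, sub_im]; simp
    rw [← e, Complex.Gamma_conj, Complex.norm_conj]
  have h4 := Pool.Agent.TH270.MS.GrowL.Gamma_shift_le s 4
  rw [h1, norm_mul, norm_mul, norm_mul (Gamma (12 - s)), h3]
  calc ‖((2 * Real.pi : ℝ) : ℂ) ^ s * (((2 * Real.pi : ℝ) : ℂ) ^ (12 - s))⁻¹‖ *
        (‖Gamma (s + (4 : ℕ))‖ * ‖(Gamma s)⁻¹‖) * ‖LD (12 - s)‖
      ≤ 1 * (∏ j ∈ Finset.range 4, ‖s + j‖) * ‖LD (12 - s)‖ := by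
        gcongr
    _ = _ := by ring

/-- polynomial growth in the strip `4 ≤ Re s ≤ 8` -/
theorem LD_strip : ∃ A : ℝ, 1 ≤ A ∧ ∀ s : ℂ, 4 ≤ s.re → s.re ≤ 8 → ‖LD s‖ ≤ A * ‖s + 3‖ ^ 4 := by
  obtain ⟨A, hA, hb⟩ := LD_bounds (a := 8) (by norm_num)
  obtain ⟨M, hM, hLs⟩ : ∃ M : ℝ, 0 ≤ M ∧ ∀ s : ℂ, 4 ≤ s.re → s.re ≤ 8 → ‖LamM s‖ ≤ M := LamM_strip 4 8
  set h : ℂ → ℂ := fun z => LD z / (z + 3) ^ 4 with hh
  have hn1 : ∀ z : ℂ, 4 ≤ z.re → 1 ≤ ‖z + 3‖ := fun z hz => by
    refine le_trans ?_ ((le_abs_self _).trans (Complex.abs_re_le_norm (z + 3)))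
    simp
    linarith
  have hne : ∀ z : ℂ, 4 ≤ z.re → (z + 3) ^ 4 ≠ 0 := fun z hz =>
    pow_ne_zero _ (norm_pos_iff.1 (lt_of_lt_of_le one_pos (hn1 z hz)))
  have hle : ∀ z : ℂ, 4 ≤ z.re → ‖h z‖ ≤ ‖LD z‖ := by
    intro z hz
    rw [hh]
    simp only [norm_div, norm_pow]
    apply div_le_self (norm_nonneg _)
    exact one_le_pow₀ (hn1 z hz)
  have hp1 : (1 : ℝ) ≤ 2 * Real.pi := by have := Real.pi_gt_three; linarith
  refine ⟨A, hA, fun s h4 h8 => ?_⟩
  have key : ‖h s‖ ≤ A := by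
    apply PhragmenLindelof.vertical_strip (a := 4) (b := 8) (f := h) (C := A) ?_ ?_ ?_ ?_ h4 h8
    · apply DifferentiableOn.diffContOnCl
      intro w hw
      have hw' : w ∈ Complex.re ⁻¹' (Icc 4 8) := by
        have : closure (Complex.re ⁻¹' (Ioo 4 8)) ⊆ Complex.re ⁻¹' (Icc 4 8) :=
          closure_minimal (preimage_mono Ioo_subset_Icc_self) (isClosed_Icc.preimage Complex.continuous_re)
        exact this hw
      apply DifferentiableAt.differentiableWithinAt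
      apply DifferentiableAt.div
      · exact LD_diff w
      · fun_prop
      · exact hne w hw'.1
    · refine ⟨Real.pi / 8, ?_, 8, ?_⟩
      · norm_num
        apply div_lt_div_of_pos_left Real.pi_pos (by norm_num)
        norm_num
      · obtain ⟨C₃, hC₃0, hC₃⟩ := Pool.Agent.TH270.MS.GrowL.inv_Gamma_strip 4 8
        apply Asymptotics.IsBigO.of_bound ((2 * Real.pi) ^ (8 : ℝ) * C₃ * M)
        rw [Filter.eventually_inf_principal]
        have hev : ∀ᶠ z : ℂ in comap (_root_.abs ∘ Complex.im) atTop, 1 ≤ (_root_.abs ∘ Complex.im) z :=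
          tendsto_comap.eventually (eventually_ge_atTop 1)
        filter_upwards [hev] with z hz1 hz
        have hz1 : 1 ≤ |z.im| := hz1
        have ha : 4 ≤ z.re := (mem_preimage.1 hz).1.le
        have hb' : z.re ≤ 8 := (mem_preimage.1 hz).2.le
        refine (hle z ha).trans ?_
        unfold LD
        rw [norm_mul, norm_mul, Real.norm_of_nonneg (Real.exp_pos _).le]
        have h1 := hLs z ha hb'
        have h2 := hC₃ z ha hb' hz1
        have h3 : Real.exp (Real.pi * |z.im|) ≤ Real.exp (8 * Real.exp (Real.pi / 8 * |z.im|)) := by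
          apply Real.exp_le_exp.2
          have h4 : Real.pi / 8 * |z.im| ≤ Real.exp (Real.pi / 8 * |z.im|) :=
            (by linarith [Real.add_one_le_exp (Real.pi / 8 * |z.im|)])
          linarith
        have h5 : ‖((2 * Real.pi : ℝ) : ℂ) ^ z‖ ≤ (2 * Real.pi) ^ (8 : ℝ) := by
          rw [Complex.norm_cpow_eq_rpow_re_of_pos (by positivity)]
          exact Real.rpow_le_rpow_of_exponent_le hp1 hb'
        calc ‖((2 * Real.pi : ℝ) : ℂ) ^ z‖ * ‖(Complex.Gamma z)⁻¹‖ * ‖LamM z‖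
            ≤ (2 * Real.pi) ^ (8 : ℝ) * (C₃ * Real.exp (Real.pi * |z.im|)) * M := by gcongr
          _ ≤ (2 * Real.pi) ^ (8 : ℝ) * (C₃ * Real.exp (8 * Real.exp (Real.pi / 8 * |z.im|))) * M := by gcongr
          _ = _ := by ring
    · intro w hw
      have hwα : 4 ≤ w.re := hw.ge
      rw [hh]
      simp only [norm_div, norm_pow]
      have hpos : 0 < ‖w + 3‖ ^ 4 := pow_pos (lt_of_lt_of_le one_pos (hn1 w hwα)) _
      rw [div_le_iff₀ hpos]
      refine (LD_fe w hw).trans ?_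
      have h0 : (12 - w).re = 8 := by
        rw [sub_re, hw]; norm_num
      refine mul_le_mul (hb _ h0.ge).1 ?_ (Finset.prod_nonneg fun _ _ => norm_nonneg _) (by linarith)
      calc ∏ j ∈ Finset.range 4, ‖w + j‖ ≤ ∏ _j ∈ Finset.range 4, ‖w + 3‖ := by
            apply Finset.prod_le_prod (fun _ _ => norm_nonneg _)
            intro j hj
            have hj : (j:ℝ) ≤ 3 := by
              have := Finset.mem_range.1 hj
              exact_mod_cast (by omega : j ≤ 3)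
            have hj0 : (0:ℝ) ≤ j := Nat.cast_nonneg j
            rw [← Real.sqrt_sq (norm_nonneg (w + 3)), ← Real.sqrt_sq (norm_nonneg (w + j))]
            apply Real.sqrt_le_sqrt
            rw [← Complex.normSq_eq_norm_sq, ← Complex.normSq_eq_norm_sq, Complex.normSq_apply,
              Complex.normSq_apply]
            simp only [Complex.add_re, Complex.add_im, Complex.natCast_re, Complex.natCast_im,
              Complex.re_ofNat, Complex.im_ofNat, add_zero]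
            nlinarith
        _ = ‖w + 3‖ ^ 4 := by simp
    · intro w hw
      have hwα : 4 ≤ w.re := by rw [hw]; norm_num
      exact (hle w hwα).trans (hb w hw.ge).1
  have hpos : 0 < ‖s + 3‖ ^ 4 := pow_pos (lt_of_lt_of_le one_pos (hn1 s h4)) _
  rw [hh] at key
  simp only [norm_div, norm_pow] at key
  rwa [div_le_iff₀ hpos] at key

/-- polynomial growth in the half-plane `Re s ≥ 4` -/
theorem LD_growth : ∃ A : ℝ, 1 ≤ A ∧ ∀ s : ℂ, 4 ≤ s.re → ‖LD s‖ ≤ A * ‖s + 3‖ ^ 4 := by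
  obtain ⟨A, hA, h⟩ := LD_strip
  obtain ⟨A', hA', hb⟩ := LD_bounds (a := 8) (by norm_num)
  refine ⟨max A A', hA.trans (le_max_left _ _), fun s hs => ?_⟩
  have hn1 : 1 ≤ ‖s + 3‖ := by
    refine le_trans ?_ ((le_abs_self _).trans (Complex.abs_re_le_norm (s + 3)))
    simp
    linarith
  rcases le_total s.re 8 with h8 | h8
  · refine (h s hs h8).trans ?_
    gcongr
    exact le_max_left _ _
  · calc ‖LD s‖ ≤ A' := (hb s h8).1
      _ ≤ max A A' * 1 := by rw [mul_one]; exact le_max_right _ _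
      _ ≤ _ := by
        gcongr
        exact one_le_pow₀ hn1

end Pool.Agent.H424.DX
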