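import Pool.Agent.H424.DX.Kern
import Pool.Agent.H477.Jen.Stir
import Pool.Agent.H477.Jen.Zer

set_option autoImplicit false

/-!
# Ramanujan's Xi-function satisfies the local model of `Pool/Agent/H477/Jen/Loc.lean`
-/

namespace Pool.Agent.H424.DX

open Complex MeasureTheory Filter Topology Set Metric
open scoped ComplexConjugate Real
open Pool.Agent.H575.RD
open Pool.Agent.Helper242.KK (FT)
open Pool.Agent.H477.Jen

/-- the archimedean factor -/
noncomputable def HD (s : ℂ) : ℂ := ((2 * Real.pi : ℝ) : ℂ) ^ (-s) * Gamma s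

/-- the frequency -/
noncomputable def lamD (t : ℝ) : ℂ := log (I * t) - (Real.log (2 * Real.pi) : ℝ)

/-- logarithmic derivative of the archimedean factor -/
noncomputable def LL (s : ℂ) : ℂ := logDeriv Gamma s - (Real.log (2 * Real.pi) : ℝ)

theorem hasDerivAt_HD {s : ℂ} (hs : 0 < s.re) : HasDerivAt HD (LL s * HD s) s := by
  have hG0 : Gamma s ≠ 0 := Complex.Gamma_ne_zero_of_re_pos hs
  have hG : HasDerivAt Gamma (logDeriv Gamma s * Gamma s) s := by
    have h1 : DifferentiableAt ℂ Gamma s := by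
      apply Complex.differentiableAt_Gamma
      intro m h
      rw [h] at hs
      simp at hs
      have : (0:ℝ) ≤ m := Nat.cast_nonneg m
      linarith
    have h2 := h1.hasDerivAt
    rwa [logDeriv_apply, div_mul_cancel₀ _ hG0]
  have h2 : HasDerivAt (fun z : ℂ => ((2 * Real.pi : ℝ) : ℂ) ^ (-z))
      (((2 * Real.pi : ℝ) : ℂ) ^ (-s) * log ((2 * Real.pi : ℝ) : ℂ) * (-1)) s :=
    (hasDerivAt_neg s).const_cpow (c := ((2 * Real.pi : ℝ) : ℂ)) (Or.inl two_pi_ne)
  have h4 := h2.mul hG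
  refine h4.congr_deriv ?_
  simp only [LL]
  rw [Complex.ofReal_log (by positivity)]
  unfold HD
  ring

theorem HD_ne {s : ℂ} (hs : 0 < s.re) : HD s ≠ 0 :=
  mul_ne_zero ((Complex.cpow_ne_zero_iff).2 (Or.inl two_pi_ne)) (Complex.Gamma_ne_zero_of_re_pos hs)

theorem LamM_HD {s : ℂ} (hs : 0 < s.re) : LamM s = HD s * LD s := by
  unfold HD LD
  have h1 : ((2 * Real.pi : ℝ) : ℂ) ^ s ≠ 0 := (Complex.cpow_ne_zero_iff).2 (Or.inl two_pi_ne)
  have h2 := Complex.Gamma_ne_zero_of_re_pos hs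
  rw [Complex.cpow_neg]
  field_simp

theorem FT_eq {z : ℂ} (hz : 0 < (6 + I * z).re) : FT wD z = HD (6 + I * z) * LD (6 + I * z) := by
  rw [FT_wD, LamM_HD hz]

theorem LL_bound {s : ℂ} {t : ℝ} {v : ℂ} (ht : 4 ≤ t) (hs : 0 < s.re) (him : t / 2 ≤ s.im)
    (hd : ‖s - I * t‖ ≤ 6 + ‖v‖) : ‖LL s - lamD t‖ ≤ 24 * (1 + ‖v‖) / t := by
  have ht0 : 0 < t := by linarith
  have h3 := digamma_asymp (s := s) (m := t / 2) hs (by linarith) him
  have h4 := log_lip (a := s) (b := I * t) (m := t / 2) (by linarith) him (by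
      have : (I * (t:ℂ)).im = t := by simp
      rw [this]; linarith)
  have e : LL s - lamD t = (logDeriv Gamma s - log s) + (log s - log (I * t)) := by
    unfold LL lamD
    ring
  rw [e]
  calc _ ≤ ‖logDeriv Gamma s - log s‖ + ‖log s - log (I * t)‖ := norm_add_le _ _
    _ ≤ 6 / (t / 2) + 1 / (t / 2) * (6 + ‖v‖) := by
        refine add_le_add h3 (h4.trans ?_)
        gcongr
    _ = (24 + 2 * ‖v‖) / t := by field_simp; ring
    _ ≤ _ := by
        apply div_le_div_of_nonneg_right _ ht0.le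
        have := norm_nonneg v
        linarith

theorem fact_D {t : ℝ} (ht : 4 ≤ t) {v : ℂ} (hv : v.im ≤ 0) (hvt : ‖v‖ ^ 2 ≤ t) :
    ∃ θ : ℂ, ‖θ‖ ≤ (24 * Real.exp 96) * (1 + ‖v‖) ^ 2 / t ∧
      HD (6 + I * (t + v)) = HD (6 + I * t) * exp (I * lamD t * v) * (1 + θ) := by
  have ht0 : 0 < t := by linarith
  have hvn := norm_nonneg v
  have hv2 : ‖v‖ ≤ t / 2 := by
    apply le_of_sq_le_sq _ (by linarith)
    calc ‖v‖ ^ 2 ≤ t := hvt
      _ ≤ (t / 2) ^ 2 := by nlinarith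
  set K : ℝ := 24 * (1 + ‖v‖) ^ 2 / t with hK
  have hK0 : 0 ≤ K := by positivity
  have hK68 : K ≤ 96 := by
    rw [hK, div_le_iff₀ ht0]
    have : 0 ≤ (1 - ‖v‖) ^ 2 := sq_nonneg _
    nlinarith
  set s : ℝ → ℂ := fun τ => 6 + I * (t + τ * v) with hs
  have hsre : ∀ τ ∈ Icc (0:ℝ) 1, 0 < (s τ).re := by
    intro τ hτ
    have : (s τ).re = 6 + τ * (-v.im) := by simp [hs]
    rw [this]
    have := mul_nonneg hτ.1 (neg_nonneg.2 hv)
    linarith
  have hsim : ∀ τ ∈ Icc (0:ℝ) 1, t / 2 ≤ (s τ).im := by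
    intro τ hτ
    have : (s τ).im = t + τ * v.re := by simp [hs]
    rw [this]
    have h1 : |τ * v.re| ≤ 1 * ‖v‖ := by
      rw [abs_mul]
      exact mul_le_mul (abs_le.2 ⟨by linarith [hτ.1], hτ.2⟩) (abs_re_le_norm v) (abs_nonneg _)
        zero_le_one
    have := (abs_le.1 h1).1
    linarith
  have hsd : ∀ τ ∈ Icc (0:ℝ) 1, ‖s τ - I * t‖ ≤ 6 + ‖v‖ := by
    intro τ hτ
    have : s τ - I * t = 6 + I * (τ * v) := by simp only [hs]; ring
    rw [this]
    refine (norm_add_le _ _).trans ?_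
    rw [norm_mul, norm_I, one_mul, norm_mul, norm_real, Real.norm_eq_abs,
      abs_of_nonneg hτ.1]
    have h1 : τ * ‖v‖ ≤ 1 * ‖v‖ := mul_le_mul_of_nonneg_right hτ.2 hvn
    have h2 : ‖(6 : ℂ)‖ = 6 := by norm_num
    linarith
  set E : ℝ → ℂ := fun τ => HD (s τ) * exp (-(I * lamD t * v) * τ) with hE
  set D : ℝ → ℂ := fun τ => (LL (s τ) - lamD t) * (I * v) with hD
  have hEd : ∀ τ ∈ Icc (0:ℝ) 1, HasDerivAt E (D τ * E τ) τ := by
    intro τ hτ
    have h1 := hasDerivAt_HD (hsre τ hτ)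
    have h2 : HasDerivAt (fun τ : ℝ => (τ : ℂ)) 1 τ := Complex.ofRealCLM.hasDerivAt
    have h3 : HasDerivAt s (I * v) τ := by
      have := (((h2.mul_const v).const_add (t:ℂ)).const_mul I).const_add (6 : ℂ)
      simpa [hs] using this
    have h4 : HasDerivAt (fun τ : ℝ => HD (s τ)) ((LL (s τ) * HD (s τ)) * (I * v)) τ :=
      HasDerivAt.comp_of_eq (x := τ) (h₂ := HD) (h := s) h1 h3 rfl
    have h5 : HasDerivAt (fun τ : ℝ => exp (-(I * lamD t * v) * τ))
        (exp (-(I * lamD t * v) * τ) * (-(I * lamD t * v) * 1)) τ :=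
      (h2.const_mul (-(I * lamD t * v))).cexp
    refine (h4.mul h5).congr_deriv ?_
    simp only [hD, hE]
    ring
  have hE0 : E 0 ≠ 0 := by
    simp only [hE]
    exact mul_ne_zero (HD_ne (hsre 0 (by simp))) (exp_ne_zero _)
  have hDb : ∀ τ ∈ Icc (0:ℝ) 1, ‖D τ‖ ≤ K := by
    intro τ hτ
    have h1 := LL_bound ht (hsre τ hτ) (hsim τ hτ) (hsd τ hτ)
    simp only [hD]
    rw [norm_mul, norm_mul, norm_I, one_mul]
    calc ‖LL (s τ) - lamD t‖ * ‖v‖ ≤ 24 * (1 + ‖v‖) / t * (1 + ‖v‖) := by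
          gcongr
          linarith
      _ = K := by rw [hK]; ring
  have h := exp_compare hK0 hEd hE0 hDb
  refine ⟨E 1 / E 0 - 1, h.trans ?_, ?_⟩
  · calc K * Real.exp K ≤ K * Real.exp 96 := by gcongr
      _ = _ := by rw [hK]; ring
  · rw [add_sub_cancel]
    have e0 : E 0 = HD (6 + I * t) := by
      simp only [hE, hs]
      simp
    have e1 : E 1 = HD (6 + I * (t + v)) * exp (-(I * lamD t * v)) := by
      simp only [hE, hs]
      simp
    have e2 : HD (6 + I * t) * (E 1 / E 0) = E 1 := by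
      rw [← e0]
      field_simp
    rw [mul_assoc, mul_comm (exp _), ← mul_assoc, e2, e1, mul_assoc, ← exp_add, neg_add_cancel,
      exp_zero, mul_one]

theorem lamD_re {t : ℝ} (ht : 0 < t) : (lamD t).re = Real.log t - Real.log (2 * Real.pi) := by
  unfold lamD
  rw [sub_re, ofReal_re, Complex.log_re]
  have h1 : ‖I * (t:ℂ)‖ = t := by
    rw [norm_mul, norm_I, one_mul, norm_real, Real.norm_eq_abs, abs_of_pos ht]
  rw [h1]

theorem lamD_im {t : ℝ} (ht : 0 < t) : (lamD t).im = Real.pi / 2 := by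
  unfold lamD
  rw [sub_im, ofReal_im, sub_zero, Complex.log_im]
  have h1 : I * (t:ℂ) = ((t : ℝ) : ℂ) * I := by ring
  rw [h1, Complex.arg_real_mul _ ht, Complex.arg_I]

theorem lamD_cont {t : ℝ} (ht : 0 < t) : ContinuousAt lamD t := by
  unfold lamD
  have h1 : ContinuousAt (fun t : ℝ => log (I * t)) t := by
    apply ContinuousAt.clog
    · fun_prop
    · right
      have : (I * (t:ℂ)).im = t := by simp
      rw [this]
      exact ht.ne'
  exact h1.sub continuousAt_const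

theorem loc_D : ∃ C : ℝ, 4 ≤ C ∧ Loc (FT wD) (fun z => LD (6 + I * z)) (fun t => HD (6 + I * t)) lamD C 1 4 := by
  obtain ⟨A, hA1, hA⟩ := LD_growth
  have hE := Real.exp_pos 96
  set C : ℝ := 24 * Real.exp 96 + 100 + 16 * A with hC
  have hC100 : 100 ≤ C := by rw [hC]; linarith
  refine ⟨C, by linarith, ⟨ker_wD.FT_diff, FT_conj wD_even, by linarith, fun t ht => ?_,
    fun t ht => ?_, fun t ht => ?_, by norm_num, fun t ht v hv hvt => ?_, fun z hz hzi => ?_,
    ?_, fun δ hδ => ?_⟩⟩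
  · exact HD_ne (by simp)
  · rw [lamD_re (by linarith)]
    have h1 : 0 ≤ Real.log (2 * Real.pi) := Real.log_nonneg (by linarith [Real.pi_gt_three])
    have h2 : Real.log (2 * Real.pi) ≤ 2 * Real.pi - 1 :=
      Real.log_le_sub_one_of_pos (by linarith [Real.pi_gt_three])
    rw [abs_le]
    constructor <;> linarith [Real.pi_lt_four]
  · rw [lamD_im (by linarith), abs_of_pos (by positivity)]
    linarith [Real.pi_lt_four]
  · obtain ⟨θ, h1, h2⟩ := fact_D (by linarith : 4 ≤ t) hv hvt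
    refine ⟨θ, h1.trans ?_, ?_⟩
    · have : 24 * Real.exp 96 ≤ C := by rw [hC]; linarith
      have ht0 : 0 < t := by linarith
      gcongr
    · have hre : 0 < (6 + I * ((t:ℂ) + v)).re := by
        simp
        linarith
      rw [FT_eq hre, h2]
  · have hn : 100 ≤ ‖z‖ := by
      have := (le_abs_self _).trans (abs_re_le_norm z)
      linarith
    have h1 : 4 ≤ (6 + I * z).re := by
      simp
      linarith
    refine (hA _ h1).trans ?_
    have h3 : ‖6 + I * z + 3‖ ≤ 9 + ‖z‖ := by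
      have e : 6 + I * z + 3 = 9 + I * z := by ring
      rw [e]
      refine (norm_add_le _ _).trans ?_
      rw [norm_mul, norm_I, one_mul]
      norm_num
    calc A * ‖6 + I * z + 3‖ ^ 4 ≤ A * (2 * ‖z‖) ^ 4 := by
          gcongr
          linarith
      _ = 16 * A * ‖z‖ ^ 4 := by ring
      _ ≤ _ := by
          gcongr
          linarith
  · have : Differentiable ℂ fun z : ℂ => LD (6 + I * z) := LD_diff.comp (by fun_prop)
    exact this.differentiableOn
  · obtain ⟨A', hA1', hA'⟩ := LD_bounds (a := 13 / 2 + δ) (by linarith)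
    refine ⟨A', hA1', fun z hz => hA' _ ?_⟩
    simp
    linarith

theorem FT_zero {z : ℂ} (hz : FT wD z = 0) : -(1 / 2) ≤ z.im := by
  by_contra hlt
  push Not at hlt
  have h1 : 13 / 2 < (6 + I * z).re := by
    simp
    linarith
  rw [FT_eq (by linarith)] at hz
  exact mul_ne_zero (HD_ne (by linarith)) (LD_ne h1) hz

theorem zeros_D {F : ℂ → ℂ} (hF : IsF wD F) (x : ℂ) (hx : F x = 0) : x.re ≤ 1 / 2 - ‖x‖ := by
  obtain ⟨z, hz⟩ : ∃ z : ℂ, z ^ 2 = -x := ⟨(-x) ^ (((2 : ℕ) : ℂ)⁻¹),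
    Complex.cpow_nat_inv_pow (-x) two_ne_zero⟩
  have h1 : FT wD z = 0 := by
    rw [← hF.eq, hz, neg_neg, hx]
  have h2 : FT wD (-z) = 0 := by
    rw [← hF.eq, neg_sq, hz, neg_neg, hx]
  have h3 := FT_zero h1
  have h4 := FT_zero h2
  rw [neg_im] at h4
  have e : x = -z ^ 2 := by rw [hz, neg_neg]
  have e1 : x.re = z.im ^ 2 - z.re ^ 2 := by
    rw [e, neg_re, sq, mul_re]
    ring
  have e2 : ‖x‖ = z.re ^ 2 + z.im ^ 2 := by
    rw [e, norm_neg, norm_pow, Complex.sq_norm, Complex.normSq_apply]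
    ring
  rw [e1, e2]
  have h5 : z.im ^ 2 ≤ (1 / 2) ^ 2 := sq_le_sq' (by linarith) (by linarith)
  linarith

/-- hyperbolicity of the Jensen polynomials, first form -/
theorem jensen_D (ε : ℝ) (hε : 0 < ε) :
    ∃ C : ℝ, ∀ d n : ℕ, 1 ≤ d → (1 / 4 + ε) * Real.log d + C ≤ n → ∀ Y : ℂ,
      ∑ j ∈ Finset.range (d + 1), (d.choose j : ℂ) * (gam wD (n + j) : ℂ) * Y ^ j = 0 →
        Y.im = 0 := by
  obtain ⟨F, hF⟩ := ker_wD.exists_F
  obtain ⟨C0, -, hloc⟩ := loc_D
  obtain ⟨C, hC⟩ := hloc.hyper ker_wD hF (zeros_D hF) ε hε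
  refine ⟨C, fun d n hd hn Y hY => (hC d n hd ?_).2 Y ?_⟩
  · have : ((1 : ℝ) / 4 : ℝ) = 1 / 4 := rfl
    exact hn
  · simp_rw [hF.deriv_zero]
    exact hY

end Pool.Agent.H424.DX
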