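import Pool.Agent.H424.DX.Gro
import Pool.Agent.H477.Jen.Local

set_option autoImplicit false

/-!
# The kernel of Ramanujan's Xi-function
-/

namespace Pool.Agent.H424.DX

open Complex MeasureTheory Filter Topology Set MatrixGroups
open UpperHalfPlane hiding I
open scoped ComplexConjugate Real
open Pool.Agent.H575.RD
open Pool.Agent.Helper242.KK (FT)
open Pool.Agent.H477.Jen (Ker)

lemma Dl_nonneg (y : ℝ) : 0 ≤ Dl y := by
  unfold Dl
  refine mul_nonneg (Real.exp_pos _).le ?_
  have hterm : ∀ n : ℕ, 0 ≤ (1 - Real.exp (-2 * Real.pi * ((n : ℝ) + 1) * y)) ^ 24 := fun n => by positivity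
  by_cases h : Multipliable fun n : ℕ => (1 - Real.exp (-2 * Real.pi * ((n : ℝ) + 1) * y)) ^ 24
  · exact ge_of_tendsto' h.hasProd fun s => Finset.prod_nonneg fun n _ => hterm n
  · rw [tprod_eq_one_of_not_multipliable h]
    exact zero_le_one

lemma Dl_pos {y : ℝ} (hy : 0 < y) : 0 < Dl y := by
  refine lt_of_le_of_ne (Dl_nonneg y) fun h => ?_
  have h1 := Dl_eq hy
  rw [← h, CuspForm.coe_discriminant, Complex.ofReal_zero] at h1
  exact ModularForm.discriminant_ne_zero _ h1

lemma Dl_le {y : ℝ} (hy : 0 < y) : Dl y ≤ Real.exp (-2 * Real.pi * y) := by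
  unfold Dl
  have h1 : ∏' n : ℕ, (1 - Real.exp (-2 * Real.pi * ((n : ℝ) + 1) * y)) ^ 24 ≤ 1 := by
    by_cases h : Multipliable fun n : ℕ => (1 - Real.exp (-2 * Real.pi * ((n : ℝ) + 1) * y)) ^ 24
    · refine le_of_tendsto' h.hasProd fun s => Finset.prod_le_one (fun n _ => by positivity) fun n _ => ?_
      have h2 : Real.exp (-2 * Real.pi * ((n : ℝ) + 1) * y) ≤ 1 := by
        apply Real.exp_le_one_iff.2
        have : 0 ≤ 2 * Real.pi * ((n : ℝ) + 1) * y := by positivity
        linarith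
      exact pow_le_one₀ (by linarith) (by linarith [Real.exp_pos (-2 * Real.pi * ((n : ℝ) + 1) * y)])
    · rw [tprod_eq_one_of_not_multipliable h]
  calc _ ≤ Real.exp (-2 * Real.pi * y) * 1 := mul_le_mul_of_nonneg_left h1 (Real.exp_pos _).le
    _ = _ := mul_one _

lemma Dl_inv {x : ℝ} (hx : 0 < x) : Dl (1 / x) = x ^ 12 * Dl x := by
  have h := PP.h_feq x hx
  rw [PP_f (by positivity), PP_g hx] at h
  have hk : PP.k = 12 := by
    show (((12 : ℤ) : ℝ)) = 12
    norm_num
  have hε : PP.ε = 1 := by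
    show (I : ℂ) ^ (12 : ℤ) = 1
    have : (I : ℂ) ^ (12 : ℤ) = ((I : ℂ) ^ 4) ^ 3 := by
      rw [← pow_mul]
      norm_cast
    rw [this, I_pow_four, one_pow]
  rw [hk, hε, one_mul, smul_eq_mul] at h
  have e : x ^ (12 : ℝ) = x ^ 12 := by
    rw [show (12 : ℝ) = ((12 : ℕ) : ℝ) by norm_num, Real.rpow_natCast]
  rw [e] at h
  exact_mod_cast h

/-- the kernel -/
noncomputable def wD (t : ℝ) : ℝ := Real.exp (6 * t) * Dl (Real.exp t)

lemma wD_even (t : ℝ) : wD (-t) = wD t := by
  unfold wD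
  have h := Dl_inv (Real.exp_pos t)
  rw [one_div, ← Real.exp_neg] at h
  rw [h, ← Real.exp_nat_mul, ← mul_assoc, ← Real.exp_add]
  congr 2
  push_cast
  ring

lemma wD_cont : Continuous wD := by
  unfold wD
  refine (by fun_prop : Continuous fun t : ℝ => Real.exp (6 * t)).mul ?_
  have hc : Continuous (CuspForm.discriminant : ℍ → ℂ) :=
    ModularFormClass.continuous (Γ := 𝒮ℒ) (k := 12) CuspForm.discriminant
  have him : ∀ t : ℝ, 0 < (I * ((Real.exp t : ℝ) : ℂ)).im := fun t => by
    rw [Complex.I_mul_im, Complex.ofReal_re]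
    exact Real.exp_pos t
  have h2 : Continuous fun t : ℝ => (⟨I * ((Real.exp t : ℝ) : ℂ), him t⟩ : ℍ) := by
    rw [UpperHalfPlane.isEmbedding_coe.continuous_iff]
    show Continuous fun t : ℝ => I * ((Real.exp t : ℝ) : ℂ)
    fun_prop
  have h3 : (fun t : ℝ => Dl (Real.exp t)) =
      fun t : ℝ => (CuspForm.discriminant (⟨I * ((Real.exp t : ℝ) : ℂ), him t⟩ : ℍ)).re := by
    funext t
    have h4 := Dl_eq (Real.exp_pos t)
    rw [ofComplex_apply_of_im_pos (him t)] at h4
    rw [h4, Complex.ofReal_re]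
  rw [h3]
  exact Complex.continuous_re.comp (hc.comp h2)

theorem ker_wD : Ker wD := by
  refine ⟨wD_cont, wD_even, fun t => mul_pos (Real.exp_pos _) (Dl_pos (Real.exp_pos _)), ?_⟩
  refine ⟨1, fun t => ?_⟩
  have key : ∀ x : ℝ, 0 ≤ x → wD x ≤ 1 * Real.exp (-Real.exp x) := by
    intro x hx
    unfold wD
    have h1 := Dl_le (Real.exp_pos x)
    have h2 := Real.quadratic_le_exp_of_nonneg hx
    have h3 := Real.pi_gt_three
    calc Real.exp (6 * x) * Dl (Real.exp x) ≤ Real.exp (6 * x) * Real.exp (-2 * Real.pi * Real.exp x) :=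
          mul_le_mul_of_nonneg_left h1 (Real.exp_pos _).le
      _ = Real.exp (6 * x + -2 * Real.pi * Real.exp x) := by rw [← Real.exp_add]
      _ ≤ 1 * Real.exp (-Real.exp x) := by
          rw [one_mul]
          apply Real.exp_le_exp.2
          have h4 : 6 * Real.exp x ≤ 2 * Real.pi * Real.exp x :=
            mul_le_mul_of_nonneg_right (by linarith) (Real.exp_pos _).le
          nlinarith [sq_nonneg (x - 1)]
  rcases le_total 0 t with h | h
  · rw [abs_of_nonneg h]; exact key t h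
  · rw [abs_of_nonpos h, ← wD_even]; exact key (-t) (by linarith)

theorem FT_wD (z : ℂ) : FT wD z = LamM (6 + I * z) := by
  unfold LamM
  rw [mellin_eq_fourier, Real.fourier_eq]
  unfold FT
  rw [← integral_neg_eq_self (fun t : ℝ => ((wD t : ℝ) : ℂ) * cexp (I * z * t))]
  refine integral_congr_ae (Eventually.of_forall fun t => ?_)
  simp only []
  rw [Circle.smul_def, Real.fourierChar_apply, Complex.real_smul, smul_eq_mul]
  have hre : (6 + I * z).re = 6 - z.im := by simp; ring
  have him : (6 + I * z).im = z.re := by simp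
  have hin : inner ℝ t (z.re / (2 * Real.pi)) = t * (z.re / (2 * Real.pi)) := by
    simp [mul_comm]
  rw [hre, him, hin]
  unfold wD
  have hpi : (Real.pi : ℂ) ≠ 0 := by exact_mod_cast Real.pi_ne_zero
  have e1 : cexp (2 * Real.pi * ((-(t * (z.re / (2 * Real.pi))) : ℝ) : ℂ) * I) *
      (((Real.exp (-(6 - z.im) * t) : ℝ) : ℂ)) = cexp (6 * (-t)) * cexp (I * z * ((-t : ℝ) : ℂ)) := by
    rw [Complex.ofReal_exp, ← Complex.exp_add, ← Complex.exp_add]
    congr 1
    have hz : z = z.re + z.im * I := (Complex.re_add_im z).symm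
    have hI : I ^ 2 = -1 := I_sq
    push_cast
    field_simp
    nth_rewrite 3 [hz]
    linear_combination ((t : ℂ) * z.im) * hI
  have e2 : ((2 * Real.pi * -(t * (z.re / (2 * Real.pi))) : ℝ) : ℂ) * I =
      2 * Real.pi * ((-(t * (z.re / (2 * Real.pi))) : ℝ) : ℂ) * I := by
    push_cast
    ring
  rw [← mul_assoc, e2, e1]
  push_cast
  ring

end Pool.Agent.H424.DX
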