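import Pool.Agent.H575.RD.D3
import Pool.Graph.R_seed8.W165.RS.Parseval

set_option autoImplicit false

/-!
# Hecke's mean square bound for Ramanujan's function, and absolute convergence for `Re s > 1`
(normalised coefficients `la n = τ(n) / n^(11/2)`)
-/

namespace Pool.Agent.H424.DX

open Complex MeasureTheory Filter Topology Set MatrixGroups
open UpperHalfPlane hiding I
open scoped ComplexConjugate Real
open Pool.Agent.X3.Tau Pool.Agent.H575.RD Pool.Agent.W165.RS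

lemma hasSum_D (x : ℝ) {y : ℝ} (hy : 0 < y) :
    HasSum (fun n : ℕ => (((tau n : ℤ) : ℂ) * ((Real.exp (-(2 * Real.pi * n * y)) : ℝ) : ℂ)) * ee n x)
      (CuspForm.discriminant ⟨x + y * Complex.I, by simpa using hy⟩) := by
  have h := ModularForm.hasSum_qExpansion (Γ := 𝒮ℒ) (k := 12) CuspForm.discriminant one_pos
    (by simp) ⟨x + y * Complex.I, by simpa using hy⟩
  convert h using 2 with n
  rw [coeff_tau]
  unfold Function.Periodic.qParam ee
  rw [mul_assoc]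
  congr 1
  rw [← Complex.exp_nat_mul]
  push_cast
  rw [← Complex.exp_add]
  congr 1
  have hI : Complex.I ^ 2 = -1 := Complex.I_sq
  linear_combination (-(2 * Real.pi * n * y) : ℂ) * hI

lemma D_bound : ∃ C : ℝ, 0 < C ∧ ∀ (x y : ℝ) (hy : 0 < y),
    ‖CuspForm.discriminant ⟨x + y * Complex.I, by simpa using hy⟩‖ ≤ C / y ^ 6 := by
  obtain ⟨C, hC⟩ := CuspFormClass.exists_bound (k := 12) (Γ := 𝒮ℒ) CuspForm.discriminant
  refine ⟨|C| + 1, by positivity, fun x y hy => ?_⟩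
  have h := hC ⟨x + y * Complex.I, by simpa using hy⟩
  have e1 : (⟨x + y * Complex.I, by simpa using hy⟩ : ℍ).im = y := by
    show ((x : ℂ) + y * Complex.I).im = y
    simp
  rw [e1] at h
  refine h.trans ?_
  have e2 : y ^ (((12 : ℤ) : ℝ) / 2) = y ^ 6 := by
    rw [show (((12 : ℤ) : ℝ) / 2) = ((6 : ℕ) : ℝ) by norm_num, Real.rpow_natCast]
  rw [e2]
  apply div_le_div_of_nonneg_right _ (by positivity)
  have := le_abs_self C
  linarith

/-- the mean square on a horizontal line -/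
lemma line : ∃ C : ℝ, 0 < C ∧ ∀ y : ℝ, 0 < y →
    Summable (fun n : ℕ => ((tau n : ℤ) : ℝ) ^ 2 * Real.exp (-(4 * Real.pi * n * y))) ∧
    ∑' n : ℕ, ((tau n : ℤ) : ℝ) ^ 2 * Real.exp (-(4 * Real.pi * n * y)) ≤ C / y ^ 12 := by
  obtain ⟨C, hC, hb⟩ := D_bound
  refine ⟨C ^ 2, by positivity, fun y hy => ?_⟩
  have hs : Summable (fun n : ℕ => ‖((tau n : ℤ) : ℂ) * ((Real.exp (-(2 * Real.pi * n * y)) : ℝ) : ℂ)‖) := by
    have h := (hasSum_D 0 hy).summable.norm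
    refine h.congr fun n => ?_
    rw [norm_mul, norm_ee, mul_one]
  have hp := parseval hs
  have e : ∀ n : ℕ, ‖((tau n : ℤ) : ℂ) * ((Real.exp (-(2 * Real.pi * n * y)) : ℝ) : ℂ)‖ ^ 2 =
      ((tau n : ℤ) : ℝ) ^ 2 * Real.exp (-(4 * Real.pi * n * y)) := by
    intro n
    rw [norm_mul, mul_pow, Complex.norm_real, Real.norm_of_nonneg (Real.exp_pos _).le,
      ← Real.exp_nat_mul, Complex.norm_intCast, sq_abs]
    congr 2
    push_cast; ring
  simp_rw [e] at hp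
  refine ⟨hp.summable, ?_⟩
  rw [hp.tsum_eq]
  have hle : ∀ x ∈ Set.Icc (0:ℝ) 1, ‖∑' n : ℕ, (((tau n : ℤ) : ℂ) *
      ((Real.exp (-(2 * Real.pi * n * y)) : ℝ) : ℂ)) * ee n x‖ ^ 2 ≤ C ^ 2 / y ^ 12 := by
    intro x _
    rw [(hasSum_D x hy).tsum_eq]
    calc _ ≤ (C / y ^ 6) ^ 2 := pow_le_pow_left₀ (norm_nonneg _) (hb x y hy) 2
      _ = _ := by rw [div_pow, ← pow_mul]
  have hgc : Continuous fun x : ℝ => ‖∑' n : ℕ, (((tau n : ℤ) : ℂ) *
      ((Real.exp (-(2 * Real.pi * n * y)) : ℝ) : ℂ)) * ee n x‖ ^ 2 := by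
    refine (Continuous.norm ?_).pow 2
    refine continuous_tsum (fun n => (continuous_const.mul (continuous_ee n))) hs ?_
    intro n x
    rw [norm_mul (_ * _) (ee _ _), norm_ee, mul_one]
  calc _ ≤ ∫ _x in (0:ℝ)..1, C ^ 2 / y ^ 12 :=
        intervalIntegral.integral_mono_on zero_le_one (hgc.intervalIntegrable _ _)
          intervalIntegrable_const hle
    _ = C ^ 2 / y ^ 12 := by simp

/-- Hecke's mean square bound -/
lemma sum_sq : ∃ C : ℝ, 0 < C ∧ ∀ N : ℕ, ∑ n ∈ Finset.Icc 1 N, ((tau n : ℤ) : ℝ) ^ 2 ≤ C * (N : ℝ) ^ 12 := by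
  obtain ⟨C, hC, h⟩ := line
  refine ⟨Real.exp (4 * Real.pi) * C, by positivity, fun N => ?_⟩
  rcases Nat.eq_zero_or_pos N with rfl | hN
  · simp
  have hN0 : (0 : ℝ) < N := by exact_mod_cast hN
  obtain ⟨h1, h2⟩ := h (1 / N) (by positivity)
  have h3 : ∀ n ∈ Finset.Icc 1 N, ((tau n : ℤ) : ℝ) ^ 2 ≤
      Real.exp (4 * Real.pi) * (((tau n : ℤ) : ℝ) ^ 2 * Real.exp (-(4 * Real.pi * n * (1 / N)))) := by
    intro n hn
    have hn1 : (n : ℝ) ≤ N := by exact_mod_cast (Finset.mem_Icc.1 hn).2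
    have h4 : 1 ≤ Real.exp (4 * Real.pi) * Real.exp (-(4 * Real.pi * n * (1 / N))) := by
      rw [← Real.exp_add]
      apply Real.one_le_exp
      have : 4 * Real.pi * n * (1 / N) ≤ 4 * Real.pi * 1 := by
        rw [mul_assoc]
        apply mul_le_mul_of_nonneg_left _ (by positivity)
        rw [mul_one_div, div_le_one hN0]
        exact hn1
      linarith
    have h5 : 0 ≤ ((tau n : ℤ) : ℝ) ^ 2 := by positivity
    nlinarith
  calc ∑ n ∈ Finset.Icc 1 N, ((tau n : ℤ) : ℝ) ^ 2 ≤ ∑ n ∈ Finset.Icc 1 N,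
        Real.exp (4 * Real.pi) * (((tau n : ℤ) : ℝ) ^ 2 * Real.exp (-(4 * Real.pi * n * (1 / N)))) :=
        Finset.sum_le_sum h3
    _ = Real.exp (4 * Real.pi) * ∑ n ∈ Finset.Icc 1 N,
        (((tau n : ℤ) : ℝ) ^ 2 * Real.exp (-(4 * Real.pi * n * (1 / N)))) := by rw [Finset.mul_sum]
    _ ≤ Real.exp (4 * Real.pi) * (C / (1 / N) ^ 12) := by
        apply mul_le_mul_of_nonneg_left _ (Real.exp_pos _).le
        refine le_trans ?_ h2
        exact h1.sum_le_tsum _ (fun n _ => by positivity)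
    _ = _ := by
        field_simp

lemma sum_abs : ∃ C : ℝ, 0 < C ∧ ∀ N : ℕ, ∑ n ∈ Finset.Icc 1 N, |((tau n : ℤ) : ℝ)| ≤
    C * (N : ℝ) ^ (13 / 2 : ℝ) := by
  obtain ⟨C, hC, h⟩ := sum_sq
  refine ⟨Real.sqrt C, by positivity, fun N => ?_⟩
  rcases Nat.eq_zero_or_pos N with rfl | hN
  · simp
  have hN0 : (0 : ℝ) < N := by exact_mod_cast hN
  have h1 : (∑ n ∈ Finset.Icc 1 N, |((tau n : ℤ) : ℝ)|) ^ 2 ≤ (N : ℝ) * ∑ n ∈ Finset.Icc 1 N, ((tau n : ℤ) : ℝ) ^ 2 := by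
    have := sq_sum_le_card_mul_sum_sq (s := Finset.Icc 1 N) (f := fun n => |((tau n : ℤ) : ℝ)|)
    simpa using this
  have h2 : (∑ n ∈ Finset.Icc 1 N, |((tau n : ℤ) : ℝ)|) ^ 2 ≤ (Real.sqrt C * (N : ℝ) ^ (13 / 2 : ℝ)) ^ 2 := by
    rw [mul_pow, Real.sq_sqrt hC.le, ← Real.rpow_natCast ((N : ℝ) ^ (13 / 2 : ℝ)) 2, ← Real.rpow_mul hN0.le]
    have e : (13 / 2 : ℝ) * ((2 : ℕ) : ℝ) = ((13 : ℕ) : ℝ) := by norm_num
    rw [e, Real.rpow_natCast]
    calc _ ≤ (N : ℝ) * (C * (N : ℝ) ^ 12) := h1.trans (mul_le_mul_of_nonneg_left (h N) hN0.le)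
      _ = _ := by ring
  exact le_of_sq_le_sq h2 (by positivity)

/-- absolute convergence for `Re s > 13/2` -/
lemma tau_summable {s : ℂ} (hs : 13 / 2 < s.re) : LSeriesSummable (fun n : ℕ => ((tau n : ℤ) : ℂ)) s := by
  refine LSeriesSummable_of_sum_norm_bigO (r := 13 / 2) ?_ (by norm_num) hs
  obtain ⟨C, hC, h⟩ := sum_abs
  refine Asymptotics.IsBigO.of_bound C (Eventually.of_forall fun N => ?_)
  have e : ∀ n : ℕ, ‖((tau n : ℤ) : ℂ)‖ = |((tau n : ℤ) : ℝ)| := fun n => by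
    rw [Complex.norm_intCast]
  simp_rw [e]
  rw [Real.norm_of_nonneg (Finset.sum_nonneg fun _ _ => abs_nonneg _),
    Real.norm_of_nonneg (by positivity)]
  exact h N

end Pool.Agent.H424.DX
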